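import Pool.Agent.Helper4.BT.Defs

/-!
# CHI : the cutoff
-/

namespace Pool.Helper4.BT
open MeasureTheory Metric Set Laplacian InnerProductSpace Topology

namespace CHI

theorem lap_eq (g : E → ℝ) (x : E) :
    (Δ g) x = ∑ i : Fin 6, fderiv ℝ (fderiv ℝ g) x (EuclideanSpace.single i (1 : ℝ))
      (EuclideanSpace.single i (1 : ℝ)) := by
  rw [laplacian_eq_iteratedFDeriv_orthonormalBasis g (EuclideanSpace.basisFun (Fin 6) ℝ)]
  simp [iteratedFDeriv_two_apply]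

theorem contDiff_bump0 {n : ℕ∞} : ContDiff ℝ n (bump0 : E → ℝ) := bump0.contDiff

theorem fderiv_rescale {F : Type*} [NormedAddCommGroup F] [NormedSpace ℝ F] {f : E → F}
    (hf : Differentiable ℝ f) (z : E) (c : ℝ) (x : E) :
    fderiv ℝ (fun x => f (c • (x - z))) x = c • fderiv ℝ f (c • (x - z)) := by
  have h1 : HasFDerivAt (fun x : E => c • (x - z)) (c • ContinuousLinearMap.id ℝ E) x := by
    exact ((hasFDerivAt_id x).sub_const z).const_smul c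
  have h2 := (hf (c • (x - z))).hasFDerivAt.comp x h1
  have h3 : fderiv ℝ (fun x => f (c • (x - z))) x
    = (fderiv ℝ f (c • (x - z))).comp (c • ContinuousLinearMap.id ℝ E) := h2.fderiv
  rw [h3]
  ext v
  simp

end CHI

theorem contDiff_chi (z : E) (ρ : ℝ) {n : ℕ∞} : ContDiff ℝ n (chi z ρ) := by
  unfold chi
  exact CHI.contDiff_bump0.comp ((contDiff_id.sub contDiff_const).const_smul ρ⁻¹)

theorem chi_nonneg (z : E) (ρ : ℝ) (x : E) : 0 ≤ chi z ρ x := bump0.nonneg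

theorem chi_le_one (z : E) (ρ : ℝ) (x : E) : chi z ρ x ≤ 1 := bump0.le_one

theorem chi_eq_one {z : E} {ρ : ℝ} (hρ : 0 < ρ) {x : E} (hx : ‖x - z‖ ≤ ρ) :
    chi z ρ x = 1 := by
  unfold chi
  apply bump0.one_of_mem_closedBall
  rw [mem_closedBall_zero_iff, norm_smul, norm_inv, Real.norm_of_nonneg hρ.le]
  show ρ⁻¹ * ‖x - z‖ ≤ 1
  rw [inv_mul_le_iff₀ hρ]
  linarith

theorem chi_eq_zero {z : E} {ρ : ℝ} (hρ : 0 < ρ) {x : E} (hx : 2 * ρ ≤ ‖x - z‖) :
    chi z ρ x = 0 := by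
  unfold chi
  apply bump0.zero_of_le_dist
  rw [dist_zero_right, norm_smul, norm_inv, Real.norm_of_nonneg hρ.le]
  show 2 ≤ ρ⁻¹ * ‖x - z‖
  rw [le_inv_mul_iff₀ hρ]
  linarith

theorem fderiv_chi_eq_zero {z : E} {ρ : ℝ} (hρ : 0 < ρ) {x : E}
    (hx : ‖x - z‖ < ρ ∨ 2 * ρ < ‖x - z‖) : fderiv ℝ (chi z ρ) x = 0 := by
  rcases hx with hx | hx
  · have : chi z ρ =ᶠ[𝓝 x] fun _ => (1 : ℝ) := by
      have ho : IsOpen {y : E | ‖y - z‖ < ρ} := isOpen_lt (by fun_prop) continuous_const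
      filter_upwards [ho.mem_nhds hx] with y hy
      exact chi_eq_one hρ (le_of_lt hy)
    rw [this.fderiv_eq]
    simp
  · have : chi z ρ =ᶠ[𝓝 x] fun _ => (0 : ℝ) := by
      have ho : IsOpen {y : E | 2 * ρ < ‖y - z‖} := isOpen_lt continuous_const (by fun_prop)
      filter_upwards [ho.mem_nhds hx] with y hy
      exact chi_eq_zero hρ (le_of_lt hy)
    rw [this.fderiv_eq]
    simp

theorem hasCompactSupport_chi (z : E) {ρ : ℝ} (hρ : 0 < ρ) : HasCompactSupport (chi z ρ) := by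
  apply HasCompactSupport.intro (isCompact_closedBall z (2 * ρ))
  intro x hx
  rw [mem_closedBall, not_le, dist_eq_norm] at hx
  exact chi_eq_zero hρ hx.le

theorem CHI.reg {f : E → ℝ} (hb2 : ContDiff ℝ 2 f) (hs0 : HasCompactSupport f) :
    Differentiable ℝ f ∧ Differentiable ℝ (fderiv ℝ f) ∧
    (∃ C1, ∀ x, ‖fderiv ℝ f x‖ ≤ C1) ∧ (∃ C2, 0 ≤ C2 ∧ ∀ (i : Fin 6) x,
      |fderiv ℝ (fderiv ℝ f) x (EuclideanSpace.single i (1 : ℝ))
        (EuclideanSpace.single i (1 : ℝ))| ≤ C2) := by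
  have hb1 : ContDiff ℝ 1 (fderiv ℝ f) := hb2.fderiv_right (by norm_num)
  have hc1 : Continuous (fderiv ℝ f) := hb2.continuous_fderiv (by norm_num)
  have hc2 : Continuous (fderiv ℝ (fderiv ℝ f)) := hb1.continuous_fderiv (by norm_num)
  refine ⟨hb2.differentiable (by norm_num), hb1.differentiable (by norm_num), ?_, ?_⟩
  · have hn : Continuous fun x => ‖fderiv ℝ f x‖ := by fun_prop
    obtain ⟨C, hC⟩ := hs0.isCompact.exists_bound_of_continuousOn hn.continuousOn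
    refine ⟨max C 0, fun x => ?_⟩
    by_cases hx : x ∈ tsupport f
    · have := hC x hx
      rw [norm_norm] at this
      exact this.trans (le_max_left _ _)
    · rw [fderiv_of_notMem_tsupport ℝ hx, norm_zero]
      exact le_max_right _ _
  · have hn : ∀ i : Fin 6, Continuous fun x => fderiv ℝ (fderiv ℝ f) x
      (EuclideanSpace.single i (1 : ℝ)) (EuclideanSpace.single i (1 : ℝ)) := by
      intro i; fun_prop
    have : ∀ i : Fin 6, ∃ C, 0 ≤ C ∧ ∀ x, |fderiv ℝ (fderiv ℝ f) x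
      (EuclideanSpace.single i (1 : ℝ)) (EuclideanSpace.single i (1 : ℝ))| ≤ C := by
      intro i
      obtain ⟨C, hC⟩ := hs0.isCompact.exists_bound_of_continuousOn (hn i).continuousOn
      refine ⟨max C 0, le_max_right _ _, fun x => ?_⟩
      by_cases hx : x ∈ tsupport f
      · have := hC x hx
        rw [Real.norm_eq_abs] at this
        exact this.trans (le_max_left _ _)
      · have hx2 : x ∉ tsupport (fderiv ℝ f) := fun h => hx (tsupport_fderiv_subset ℝ h)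
        rw [fderiv_of_notMem_tsupport ℝ hx2]
        simp
    choose C hC0 hC using this
    refine ⟨∑ i, C i, Finset.sum_nonneg fun i _ => hC0 i, fun i x => (hC i x).trans ?_⟩
    exact Finset.single_le_sum (f := C) (fun i _ => hC0 i) (Finset.mem_univ i)

theorem CHI.exists_bound {f : E → ℝ} (hb2 : ContDiff ℝ 2 f) (hs0 : HasCompactSupport f) :
    ∃ C : ℝ, 0 < C ∧ ∀ (z : E) (ρ : ℝ) (x : E), 0 < ρ →
    ‖fderiv ℝ (fun x => f (ρ⁻¹ • (x - z))) x‖ ≤ C / ρ ∧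
      |(Δ (fun x => f (ρ⁻¹ • (x - z)))) x| ≤ C / ρ ^ 2 := by
  obtain ⟨hd, hd1, ⟨C1, hC1⟩, ⟨C2, h2, hC2⟩⟩ := CHI.reg hb2 hs0
  have h1 : 0 ≤ C1 := (norm_nonneg _).trans (hC1 0)
  refine ⟨C1 + 6 * C2 + 1, by positivity, ?_⟩
  intro z ρ x hρ
  have e1 : ∀ y, fderiv ℝ (fun x => f (ρ⁻¹ • (x - z))) y = ρ⁻¹ • fderiv ℝ f (ρ⁻¹ • (y - z)) :=
    fun y => CHI.fderiv_rescale hd z ρ⁻¹ y
  have hinv : ‖ρ⁻¹‖ = 1 / ρ := by
    rw [norm_inv, Real.norm_of_nonneg hρ.le, one_div]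
  constructor
  · rw [e1, norm_smul, hinv, one_div_mul_eq_div]
    have := hC1 (ρ⁻¹ • (x - z))
    gcongr
    linarith
  · have e2 : fderiv ℝ (fderiv ℝ (fun x => f (ρ⁻¹ • (x - z)))) x
        = ρ⁻¹ • ρ⁻¹ • fderiv ℝ (fderiv ℝ f) (ρ⁻¹ • (x - z)) := by
      have : fderiv ℝ (fun x => f (ρ⁻¹ • (x - z)))
          = fun y => ρ⁻¹ • fderiv ℝ f (ρ⁻¹ • (y - z)) := by
        funext y; exact e1 y
      rw [this]
      have hdd : DifferentiableAt ℝ (fun y => fderiv ℝ f (ρ⁻¹ • (y - z))) x := by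
        have : Differentiable ℝ (fun y : E => ρ⁻¹ • (y - z)) := by fun_prop
        exact (hd1.comp this) x
      rw [fderiv_fun_const_smul hdd, CHI.fderiv_rescale hd1]
    rw [CHI.lap_eq, e2]
    have hterm : ∀ i : Fin 6, |(ρ⁻¹ • ρ⁻¹ • fderiv ℝ (fderiv ℝ f) (ρ⁻¹ • (x - z)))
            (EuclideanSpace.single i (1 : ℝ)) (EuclideanSpace.single i (1 : ℝ))|
            ≤ (1 / ρ) * ((1 / ρ) * C2) := by
      intro i
      have hT2 := hC2 i (ρ⁻¹ • (x - z))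
      simp only [_root_.smul_apply, smul_eq_mul, abs_mul]
      rw [← Real.norm_eq_abs ρ⁻¹, hinv]
      gcongr
    calc |∑ i : Fin 6, (ρ⁻¹ • ρ⁻¹ • fderiv ℝ (fderiv ℝ f) (ρ⁻¹ • (x - z)))
            (EuclideanSpace.single i (1 : ℝ)) (EuclideanSpace.single i (1 : ℝ))|
        ≤ ∑ i : Fin 6, |(ρ⁻¹ • ρ⁻¹ • fderiv ℝ (fderiv ℝ f) (ρ⁻¹ • (x - z)))
            (EuclideanSpace.single i (1 : ℝ)) (EuclideanSpace.single i (1 : ℝ))| :=
          Finset.abs_sum_le_sum_abs _ _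
      _ ≤ ∑ i : Fin 6, (1 / ρ) * ((1 / ρ) * C2) := Finset.sum_le_sum fun i _ => hterm i
      _ = 6 * C2 / ρ ^ 2 := by
          simp only [Finset.sum_const, Finset.card_univ, Fintype.card_fin, nsmul_eq_mul]
          push_cast
          field_simp
      _ ≤ (C1 + 6 * C2 + 1) / ρ ^ 2 := by
          gcongr
          linarith

theorem exists_fderiv_chi_le : ∃ C : ℝ, 0 < C ∧ ∀ (z : E) (ρ : ℝ) (x : E), 0 < ρ →
    ‖fderiv ℝ (chi z ρ) x‖ ≤ C / ρ ∧ |(Δ (chi z ρ)) x| ≤ C / ρ ^ 2 :=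
  CHI.exists_bound (f := bump0) (CHI.contDiff_bump0 (n := 2)) bump0.hasCompactSupport

end Pool.Helper4.BT
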