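import Pool.Agent.Helper4.BT.Defs

/-!
# LMAX : the Laplacian at a local maximum
-/

namespace Pool.Helper4.BT
open MeasureTheory Metric Set Laplacian InnerProductSpace Topology

namespace LMAX

theorem lap_eq (g : E → ℝ) (x : E) :
    (Δ g) x = ∑ i : Fin 6, fderiv ℝ (fderiv ℝ g) x (EuclideanSpace.single i (1 : ℝ))
      (EuclideanSpace.single i (1 : ℝ)) := by
  rw [laplacian_eq_iteratedFDeriv_orthonormalBasis g (EuclideanSpace.basisFun (Fin 6) ℝ)]
  simp [iteratedFDeriv_two_apply]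

theorem second_deriv_nonpos {φ : ℝ → ℝ} (hm : IsLocalMax φ 0) (hc : ContinuousAt φ 0) :
    deriv (deriv φ) 0 ≤ 0 := by
  by_contra hcon
  push Not at hcon
  have h0 : deriv φ 0 = 0 := hm.deriv_eq_zero
  have hmin := isLocalMin_of_deriv_deriv_pos hcon h0 hc
  have heq : φ =ᶠ[𝓝 0] fun _ => φ 0 := by
    filter_upwards [hm, hmin] with t h1 h2
    exact le_antisymm h1 h2
  have h1 : deriv φ =ᶠ[𝓝 0] deriv (fun _ => φ 0) := heq.deriv
  have h2 := h1.deriv_eq
  simp at h2
  linarith

theorem second_dir_nonpos {h : E → ℝ} {x : E} (hm : IsLocalMax h x) (hc : ContDiffAt ℝ 2 h x)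
    (v : E) : fderiv ℝ (fderiv ℝ h) x v v ≤ 0 := by
  have hline : ∀ t : ℝ, HasDerivAt (fun s : ℝ => x + s • v) v t := by
    intro t
    have := ((hasDerivAt_id t).smul_const v).const_add x
    simpa using this
  have hcont : Filter.Tendsto (fun s : ℝ => x + s • v) (𝓝 0) (𝓝 x) := by
    have := (hline 0).continuousAt
    have h2 : x + (0 : ℝ) • v = x := by simp
    rw [ContinuousAt, h2] at this
    exact this
  have hd : ∀ᶠ y in 𝓝 x, DifferentiableAt ℝ h y := by
    have := hc.eventually (by simp)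
    filter_upwards [this] with y hy
    exact hy.differentiableAt (by norm_num)
  have hfd : ContDiffAt ℝ 1 (fderiv ℝ h) x := hc.fderiv_right (by norm_num)
  have hfd1 : DifferentiableAt ℝ (fderiv ℝ h) x := hfd.differentiableAt (by norm_num)
  set φ : ℝ → ℝ := fun t => h (x + t • v) with hφ
  have e1 : deriv φ =ᶠ[𝓝 0] fun t => fderiv ℝ h (x + t • v) v := by
    filter_upwards [hcont.eventually hd] with t ht
    exact (ht.hasFDerivAt.comp_hasDerivAt t (hline t)).deriv
  have e2 : HasDerivAt (fun t : ℝ => fderiv ℝ h (x + t • v) v)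
      (fderiv ℝ (fderiv ℝ h) x v v) 0 := by
    have h2 : x + (0 : ℝ) • v = x := by simp
    have h3 : HasFDerivAt (fderiv ℝ h) (fderiv ℝ (fderiv ℝ h) x) (x + (0 : ℝ) • v) := by
      rw [h2]; exact hfd1.hasFDerivAt
    have h4 := h3.comp_hasDerivAt (0 : ℝ) (hline 0)
    exact (ContinuousLinearMap.apply ℝ ℝ v).hasFDerivAt.comp_hasDerivAt (0 : ℝ) h4
  have e3 : deriv (deriv φ) 0 = fderiv ℝ (fderiv ℝ h) x v v := by
    rw [e1.deriv_eq, e2.deriv]
  rw [← e3]
  apply second_deriv_nonpos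
  · have h2 : x + (0 : ℝ) • v = x := by simp
    have : ∀ᶠ t in 𝓝 (0 : ℝ), h (x + t • v) ≤ h x := hcont.eventually hm
    filter_upwards [this] with t ht
    simp only [hφ, h2]
    exact ht
  · have h2 : x + (0 : ℝ) • v = x := by simp
    have hcx : ContinuousAt h (x + (0 : ℝ) • v) := by rw [h2]; exact hc.continuousAt
    exact ContinuousAt.comp (f := fun t : ℝ => x + t • v) hcx (hline 0).continuousAt

end LMAX

theorem lap_nonpos_of_isLocalMax {h : E → ℝ} {x : E} (hm : IsLocalMax h x)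
    (hc : ContDiffAt ℝ 2 h x) : (Δ h) x ≤ 0 := by
  rw [LMAX.lap_eq]
  exact Finset.sum_nonpos fun i _ => LMAX.second_dir_nonpos hm hc _

end Pool.Helper4.BT
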