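import Pool.Agent.Helper83.BT.CHI

/-!
# POH : Pohozaev identities
-/

namespace Pool.Helper4.BT
open MeasureTheory Metric Set Laplacian InnerProductSpace Topology

namespace POH

/-- The derivative of `s ↦ |s| s`. -/
theorem hasDerivAt_abs_mul (s : ℝ) : HasDerivAt (fun s : ℝ => |s| * s) (2 * |s|) s := by
  rcases lt_trichotomy s 0 with h | h | h
  · have h1 := (hasDerivAt_abs_neg h).mul (hasDerivAt_id s)
    refine h1.congr_deriv ?_
    rw [abs_of_neg h]
    simp
    ring
  · subst h
    rw [hasDerivAt_iff_isLittleO]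
    simp only [abs_zero, mul_zero, sub_zero, smul_zero]
    have : (fun x : ℝ => |x| * x) =o[𝓝 0] fun x => (1 : ℝ) * x := by
      apply Asymptotics.IsLittleO.mul_isBigO _ (Asymptotics.isBigO_refl _ _)
      rw [Asymptotics.isLittleO_one_iff]
      have := (continuous_abs (G := ℝ)).tendsto 0
      simpa using this
    simpa using this
  · have h1 := (hasDerivAt_abs_pos h).mul (hasDerivAt_id s)
    refine h1.congr_deriv ?_
    rw [abs_of_pos h]
    simp
    ring

/-- The derivative of `s ↦ |s|³/3`. -/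
theorem hasDerivAt_abs_cube (s : ℝ) : HasDerivAt (fun s : ℝ => |s| ^ 3 / 3) (|s| * s) s := by
  have h1 : HasDerivAt (fun s : ℝ => |s| ^ (3 : ℝ)) (3 * |s| ^ ((3 : ℝ) - 2) * s) s :=
    hasDerivAt_abs_rpow s (by norm_num)
  have e1 : (fun s : ℝ => |s| ^ 3 / 3) = fun s : ℝ => |s| ^ (3 : ℝ) / 3 := by
    funext s
    rw [← Real.rpow_natCast]; norm_num
  rw [e1]
  refine (h1.div_const 3).congr_deriv ?_
  have : |s| ^ ((3 : ℝ) - 2) = |s| := by norm_num
  rw [this]
  ring

theorem contDiff_abs_mul : ContDiff ℝ 1 (fun s : ℝ => |s| * s) := by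
  rw [contDiff_one_iff_deriv]
  refine ⟨fun s => (hasDerivAt_abs_mul s).differentiableAt, ?_⟩
  have : deriv (fun s : ℝ => |s| * s) = fun s => 2 * |s| := by
    funext s; exact (hasDerivAt_abs_mul s).deriv
  rw [this]
  fun_prop

theorem hasDerivAt_Gp (lam s : ℝ) : HasDerivAt (Gp lam) (nl lam s) s := by
  unfold Gp nl
  have h1 : HasDerivAt (fun s : ℝ => lam * s ^ 2 / 2) (lam * s) s := by
    have := ((hasDerivAt_pow 2 s).const_mul lam).div_const 2
    refine this.congr_deriv ?_
    push_cast
    ring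
  exact h1.add (hasDerivAt_abs_cube s)

theorem integrable_of {p : E} {r : ℝ} {f : E → ℝ} (hf : Continuous f)
    (h : ∀ x, r < ‖x - p‖ → f x = 0) : Integrable f := by
  apply hf.integrable_of_hasCompactSupport
  apply HasCompactSupport.intro (isCompact_closedBall p r)
  intro x hx
  rw [mem_closedBall, not_le, dist_eq_norm] at hx
  exact h x hx

theorem continuous_nl {u : E → ℝ} (hu : Continuous u) (lam : ℝ) :
    Continuous fun x => nl lam (u x) := by
  unfold nl; fun_prop

theorem continuous_Gp {u : E → ℝ} (hu : Continuous u) (lam : ℝ) :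
    Continuous fun x => Gp lam (u x) := by
  unfold Gp; fun_prop

theorem hasFDerivAt_Gp {u : E → ℝ} (hu : Differentiable ℝ u) (lam : ℝ) (x : E) :
    HasFDerivAt (fun x => Gp lam (u x)) (nl lam (u x) • fderiv ℝ u x) x :=
  (hasDerivAt_Gp lam (u x)).comp_hasFDerivAt x (hu x).hasFDerivAt

end POH

theorem contDiff_nl (lam : ℝ) (u : E → ℝ) (hu : ContDiff ℝ 2 u) :
    ContDiff ℝ 1 (fun x => nl lam (u x)) := by
  have hu1 : ContDiff ℝ 1 u := hu.of_le (by norm_num)
  unfold nl
  exact (contDiff_const.mul hu1).add (POH.contDiff_abs_mul.comp hu1)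

theorem pohozaev' (u : E → ℝ) (hu : ContDiff ℝ 2 u) (lam : ℝ) (p v : E) (ρ : ℝ) (hρ : 0 < ρ) :
    ∫ x, chi p ρ x * nl lam (u x) * fderiv ℝ u x v
      = -(∫ x, Gp lam (u x) * fderiv ℝ (chi p ρ) x v) := by
  have hud : Differentiable ℝ u := hu.differentiable (by norm_num)
  have hc : ContDiff ℝ 1 (chi p ρ) := contDiff_chi p ρ (n := 1)
  have hcd : Differentiable ℝ (chi p ρ) := hc.differentiable (by norm_num)
  have hcc : Continuous (chi p ρ) := hc.continuous
  have hcf : Continuous (fderiv ℝ (chi p ρ)) := hc.continuous_fderiv (by norm_num)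
  have huc : Continuous u := hu.continuous
  have huf : Continuous (fderiv ℝ u) := hu.continuous_fderiv (by norm_num)
  have hG := POH.continuous_Gp huc lam
  have hn := POH.continuous_nl huc lam
  have key := integral_mul_fderiv_eq_neg_fderiv_mul_of_integrable (μ := (volume : Measure E))
    (f := fun x => Gp lam (u x)) (g := chi p ρ) (v := v) ?_ ?_ ?_ ?_ ?_
  · rw [key, neg_neg]
    refine integral_congr_ae (Filter.Eventually.of_forall fun x => ?_)
    simp only
    rw [(POH.hasFDerivAt_Gp hud lam x).fderiv]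
    simp
    ring
  · have : (fun x => fderiv ℝ (fun x => Gp lam (u x)) x v * chi p ρ x)
        = fun x => nl lam (u x) * fderiv ℝ u x v * chi p ρ x := by
      funext x
      rw [(POH.hasFDerivAt_Gp hud lam x).fderiv]
      simp
    rw [this]
    refine POH.integrable_of (p := p) (r := 2 * ρ) (by fun_prop) fun x hx => ?_
    rw [chi_eq_zero hρ hx.le, mul_zero]
  · refine POH.integrable_of (p := p) (r := 2 * ρ) (by fun_prop) fun x hx => ?_
    rw [fderiv_chi_eq_zero hρ (Or.inr hx)]
    simp
  · refine POH.integrable_of (p := p) (r := 2 * ρ) (by fun_prop) fun x hx => ?_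
    rw [chi_eq_zero hρ hx.le, mul_zero]
  · intro x _; exact (POH.hasFDerivAt_Gp hud lam x).differentiableAt
  · intro x _; exact hcd x

theorem pohozaev (u : E → ℝ) (hu : ContDiff ℝ 2 u) (lam : ℝ) (c p : E) (ρ : ℝ) (hρ : 0 < ρ) :
    ∫ x, chi p ρ x * nl lam (u x) * (fderiv ℝ u x (x - c) + 2 * u x)
      = -(∫ x, Gp lam (u x) * fderiv ℝ (chi p ρ) x (x - c))
        - lam * ∫ x, chi p ρ x * u x ^ 2 := by
  have hud : Differentiable ℝ u := hu.differentiable (by norm_num)
  have hc : ContDiff ℝ 1 (chi p ρ) := contDiff_chi p ρ (n := 1)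
  have hcd : Differentiable ℝ (chi p ρ) := hc.differentiable (by norm_num)
  have hcc : Continuous (chi p ρ) := hc.continuous
  have hcf : Continuous (fderiv ℝ (chi p ρ)) := hc.continuous_fderiv (by norm_num)
  have huc : Continuous u := hu.continuous
  have huf : Continuous (fderiv ℝ u) := hu.continuous_fderiv (by norm_num)
  have hG := POH.continuous_Gp huc lam
  have hn := POH.continuous_nl huc lam
  -- coordinates
  have hcoord : ∀ (T : E →L[ℝ] ℝ) (y : E), T y
      = ∑ i : Fin 6, y i * T (EuclideanSpace.single i (1 : ℝ)) := by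
    intro T y
    have hz : y = ∑ i : Fin 6, y i • (EuclideanSpace.single i (1 : ℝ) : E) := by
      have := (EuclideanSpace.basisFun (Fin 6) ℝ).sum_repr y
      simpa using this.symm
    conv_lhs => rw [hz, map_sum]
    simp [smul_eq_mul]
  have hproj : ∀ (i : Fin 6) (x : E), HasFDerivAt (fun x : E => (x - c) i)
      (EuclideanSpace.proj i : E →L[ℝ] ℝ) x := by
    intro i x
    have h1 := (EuclideanSpace.proj i : E →L[ℝ] ℝ).hasFDerivAt (x := x - c)
    have h2 : HasFDerivAt (fun x : E => x - c) (ContinuousLinearMap.id ℝ E) x :=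
      (hasFDerivAt_id x).sub_const c
    exact h1.comp x h2
  have hF : ∀ (i : Fin 6) (x : E), HasFDerivAt (fun x => Gp lam (u x) * (x - c) i)
      (Gp lam (u x) • (EuclideanSpace.proj i : E →L[ℝ] ℝ)
        + (x - c) i • (nl lam (u x) • fderiv ℝ u x)) x :=
    fun i x => (POH.hasFDerivAt_Gp hud lam x).mul (hproj i x)
  have hFe : ∀ (i : Fin 6) (x : E), fderiv ℝ (fun x => Gp lam (u x) * (x - c) i) x
      (EuclideanSpace.single i (1 : ℝ)) = Gp lam (u x)
        + (x - c) i * (nl lam (u x) * fderiv ℝ u x (EuclideanSpace.single i (1 : ℝ))) := by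
    intro i x
    rw [(hF i x).fderiv]
    simp
  have hi1 : ∀ i : Fin 6, Integrable fun x : E => Gp lam (u x) * (x - c) i
      * fderiv ℝ (chi p ρ) x (EuclideanSpace.single i (1 : ℝ)) := by
    intro i
    refine POH.integrable_of (p := p) (r := 2 * ρ) (by fun_prop) fun x hx => ?_
    rw [fderiv_chi_eq_zero hρ (Or.inr hx)]
    simp
  have hi2 : ∀ i : Fin 6, Integrable fun x : E => (Gp lam (u x)
      + (x - c) i * (nl lam (u x) * fderiv ℝ u x (EuclideanSpace.single i (1 : ℝ))))
      * chi p ρ x := by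
    intro i
    refine POH.integrable_of (p := p) (r := 2 * ρ) (by fun_prop) fun x hx => ?_
    rw [chi_eq_zero hρ hx.le, mul_zero]
  have hparts : ∀ i : Fin 6, ∫ x : E, Gp lam (u x) * (x - c) i
      * fderiv ℝ (chi p ρ) x (EuclideanSpace.single i (1 : ℝ))
      = -∫ x : E, (Gp lam (u x)
      + (x - c) i * (nl lam (u x) * fderiv ℝ u x (EuclideanSpace.single i (1 : ℝ))))
      * chi p ρ x := by
    intro i
    have key := integral_mul_fderiv_eq_neg_fderiv_mul_of_integrable (μ := (volume : Measure E))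
      (f := fun x => Gp lam (u x) * (x - c) i) (g := chi p ρ)
      (v := EuclideanSpace.single i (1 : ℝ)) ?_ (hi1 i) ?_ ?_ ?_
    · rw [key]
      congr 1
      refine integral_congr_ae (Filter.Eventually.of_forall fun x => ?_)
      simp only
      rw [hFe]
    · refine (hi2 i).congr (Filter.Eventually.of_forall fun x => ?_)
      simp only
      rw [hFe]
    · refine POH.integrable_of (p := p) (r := 2 * ρ) (by fun_prop) fun x hx => ?_
      rw [chi_eq_zero hρ hx.le, mul_zero]
    · intro x _; exact (hF i x).differentiableAt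
    · intro x _; exact hcd x
  have hsum1 : ∫ x, Gp lam (u x) * fderiv ℝ (chi p ρ) x (x - c)
      = -∫ x : E, (6 * Gp lam (u x) + nl lam (u x) * fderiv ℝ u x (x - c)) * chi p ρ x := by
    have e1 : (fun x => Gp lam (u x) * fderiv ℝ (chi p ρ) x (x - c))
        = fun x => ∑ i : Fin 6, Gp lam (u x) * (x - c) i
          * fderiv ℝ (chi p ρ) x (EuclideanSpace.single i (1 : ℝ)) := by
      funext x
      rw [hcoord (fderiv ℝ (chi p ρ) x) (x - c), Finset.mul_sum]
      refine Finset.sum_congr rfl fun i _ => ?_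
      ring
    have e2 : (fun x : E => (6 * Gp lam (u x) + nl lam (u x) * fderiv ℝ u x (x - c)) * chi p ρ x)
        = fun x => ∑ i : Fin 6, (Gp lam (u x)
          + (x - c) i * (nl lam (u x) * fderiv ℝ u x (EuclideanSpace.single i (1 : ℝ))))
          * chi p ρ x := by
      funext x
      rw [hcoord (fderiv ℝ u x) (x - c), ← Finset.sum_mul, Finset.sum_add_distrib, Finset.mul_sum]
      simp only [Finset.sum_const, Finset.card_univ, Fintype.card_fin, nsmul_eq_mul]
      congr 1
      push_cast
      congr 1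
      refine Finset.sum_congr rfl fun i _ => ?_
      ring
    rw [e1, e2, integral_finsetSum _ fun i _ => hi1 i, integral_finsetSum _ fun i _ => hi2 i,
      ← Finset.sum_neg_distrib]
    exact Finset.sum_congr rfl fun i _ => hparts i
  have hj1 : Integrable fun x : E =>
      (6 * Gp lam (u x) + nl lam (u x) * fderiv ℝ u x (x - c)) * chi p ρ x := by
    refine POH.integrable_of (p := p) (r := 2 * ρ) (by fun_prop) fun x hx => ?_
    rw [chi_eq_zero hρ hx.le, mul_zero]
  have hj2 : Integrable fun x : E => chi p ρ x * u x ^ 2 := by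
    refine POH.integrable_of (p := p) (r := 2 * ρ) (by fun_prop) fun x hx => ?_
    rw [chi_eq_zero hρ hx.le, zero_mul]
  rw [hsum1, neg_neg, ← integral_const_mul, ← integral_sub hj1 (hj2.const_mul lam)]
  refine integral_congr_ae (Filter.Eventually.of_forall fun x => ?_)
  simp only [nl, Gp]
  have h3 : |u x| ^ 3 = |u x| * u x ^ 2 := by
    rw [← sq_abs (u x)]; ring
  rw [h3]
  ring

end Pool.Helper4.BT
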