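import Pool.Agent.Helper4.BT.Defs

/-!
# MV : the mean value inequality for `-Δ g ≤ L g`
-/

namespace Pool.Helper4.BT
open MeasureTheory Metric Set Laplacian InnerProductSpace

namespace MV

/-- The standard basis vectors. -/
noncomputable abbrev e (i : Fin 6) : E := EuclideanSpace.single i (1 : ℝ)

theorem lap_eq (g : E → ℝ) (x : E) :
    (Δ g) x = ∑ i : Fin 6, fderiv ℝ (fderiv ℝ g) x (e i) (e i) := by
  rw [laplacian_eq_iteratedFDeriv_orthonormalBasis g (EuclideanSpace.basisFun (Fin 6) ℝ)]
  simp [iteratedFDeriv_two_apply, e]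

/-- The weight. -/
noncomputable def rho (z : E) : ℝ := (max 0 (1 - ‖z‖ ^ 2)) ^ 2

/-- Its radial primitive. -/
noncomputable def Psi (z : E) : ℝ := (max 0 (1 - ‖z‖ ^ 2)) ^ 3 / 6

theorem hasDerivAt_cube (t : ℝ) :
    HasDerivAt (fun s : ℝ => (max 0 s) ^ 3 / 6) ((max 0 t) ^ 2 / 2) t := by
  have h1 : HasDerivAt (fun s : ℝ => |s| ^ (3 : ℝ)) (3 * |t| ^ ((3 : ℝ) - 2) * t) t :=
    hasDerivAt_abs_rpow t (by norm_num)
  have h2 : HasDerivAt (fun s : ℝ => s ^ 3) (3 * t ^ 2) t := by
    simpa using hasDerivAt_pow 3 t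
  have h3 := ((h1.add h2).div_const 12)
  have e1 : (fun s : ℝ => (max 0 s) ^ 3 / 6) = fun s : ℝ => (|s| ^ (3 : ℝ) + s ^ 3) / 12 := by
    funext s
    have : |s| ^ (3 : ℝ) = |s| ^ 3 := by
      rw [← Real.rpow_natCast]; norm_num
    rw [this]
    rcases le_total 0 s with h | h
    · rw [max_eq_right h, abs_of_nonneg h]; ring
    · rw [max_eq_left h, abs_of_nonpos h]; ring
  rw [e1]
  refine h3.congr_deriv ?_
  have : |t| ^ ((3 : ℝ) - 2) = |t| := by
    norm_num
  rw [this]
  rcases le_total 0 t with h | h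
  · rw [max_eq_right h, abs_of_nonneg h]; ring
  · rw [max_eq_left h, abs_of_nonpos h]; ring

theorem continuous_rho : Continuous rho := by
  unfold rho; fun_prop

theorem continuous_Psi : Continuous Psi := by
  unfold Psi; fun_prop

theorem rho_nonneg (z : E) : 0 ≤ rho z := by unfold rho; positivity

theorem Psi_nonneg (z : E) : 0 ≤ Psi z := by
  unfold Psi
  have : 0 ≤ max 0 (1 - ‖z‖ ^ 2) := le_max_left _ _
  positivity

theorem rho_le_one (z : E) : rho z ≤ 1 := by
  unfold rho
  have h1 : max 0 (1 - ‖z‖ ^ 2) ≤ 1 := max_le (by norm_num) (by nlinarith [sq_nonneg ‖z‖])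
  have h0 : 0 ≤ max 0 (1 - ‖z‖ ^ 2) := le_max_left _ _
  nlinarith

theorem Psi_le (z : E) : Psi z ≤ rho z / 6 := by
  unfold Psi rho
  have h1 : max 0 (1 - ‖z‖ ^ 2) ≤ 1 := max_le (by norm_num) (by nlinarith [sq_nonneg ‖z‖])
  have h0 : 0 ≤ max 0 (1 - ‖z‖ ^ 2) := le_max_left _ _
  have : (max 0 (1 - ‖z‖ ^ 2)) ^ 3 ≤ (max 0 (1 - ‖z‖ ^ 2)) ^ 2 := by
    nlinarith [sq_nonneg (max 0 (1 - ‖z‖ ^ 2))]
  linarith

theorem max_eq_zero {z : E} (hz : 1 ≤ ‖z‖) : max 0 (1 - ‖z‖ ^ 2) = 0 := by
  apply max_eq_left
  nlinarith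

theorem rho_eq_zero {z : E} (hz : 1 ≤ ‖z‖) : rho z = 0 := by
  unfold rho; rw [max_eq_zero hz]; norm_num

theorem Psi_eq_zero {z : E} (hz : 1 ≤ ‖z‖) : Psi z = 0 := by
  unfold Psi; rw [max_eq_zero hz]; norm_num

theorem hasCompactSupport_of {f : E → ℝ} (h : ∀ z, 1 ≤ ‖z‖ → f z = 0) : HasCompactSupport f := by
  apply HasCompactSupport.intro (isCompact_closedBall (0 : E) 1)
  intro z hz
  apply h
  rw [mem_closedBall_zero_iff] at hz
  linarith

theorem hasFDerivAt_Psi (z : E) :
    HasFDerivAt Psi ((-(rho z)) • innerSL ℝ z) z := by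
  have h1 : HasFDerivAt (fun z : E => 1 - ‖z‖ ^ 2) (-(2 • innerSL ℝ z)) z := by
    have := (hasStrictFDerivAt_norm_sq z).hasFDerivAt.const_sub 1
    exact this
  have h2 := (hasDerivAt_cube (1 - ‖z‖ ^ 2)).comp_hasFDerivAt z h1
  refine h2.congr_fderiv ?_
  ext v
  simp [rho]
  ring

theorem fderiv_Psi (z v : E) : fderiv ℝ Psi z v = -(rho z * inner ℝ z v) := by
  rw [(hasFDerivAt_Psi z).fderiv]
  simp

/-- The weighted means. -/
noncomputable def I (g : E → ℝ) (x : E) (t : ℝ) : ℝ := ∫ z, g (x + t • z) * rho z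

theorem hasDerivAt_I {g : E → ℝ} (hg : ContDiff ℝ 2 g) (x : E) (t : ℝ) :
    HasDerivAt (I g x) (∫ z, fderiv ℝ g (x + t • z) z * rho z) t := by
  have hg1 : Continuous (fderiv ℝ g) := hg.continuous_fderiv (by norm_num)
  have hgc : Continuous g := hg.continuous
  have hF : Continuous (fun p : ℝ × E => fderiv ℝ g (x + p.1 • p.2) p.2) := by fun_prop
  obtain ⟨M, hM⟩ := ((isCompact_closedBall t 1).prod (isCompact_closedBall (0 : E) 1)).exists_bound_of_continuousOn
    hF.continuousOn
  have key := hasDerivAt_integral_of_dominated_loc_of_deriv_le (μ := (volume : Measure E))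
    (F := fun t z => g (x + t • z) * rho z)
    (F' := fun t z => fderiv ℝ g (x + t • z) z * rho z) (x₀ := t)
    (s := ball t 1) (bound := fun z => M * rho z) (ball_mem_nhds t one_pos) ?_ ?_ ?_ ?_ ?_ ?_
  · exact key.2
  · refine Filter.Eventually.of_forall fun s => ?_
    have : Continuous (fun z => g (x + s • z) * rho z) := by
      have := continuous_rho
      fun_prop
    exact this.aestronglyMeasurable
  · have : Continuous (fun z => g (x + t • z) * rho z) := by
      have := continuous_rho
      fun_prop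
    exact this.integrable_of_hasCompactSupport
      (hasCompactSupport_of fun z hz => by rw [rho_eq_zero hz, mul_zero])
  · have : Continuous (fun z => fderiv ℝ g (x + t • z) z * rho z) := by
      have := continuous_rho
      fun_prop
    exact this.aestronglyMeasurable
  · refine Filter.Eventually.of_forall fun z s hs => ?_
    by_cases hz : 1 ≤ ‖z‖
    · rw [rho_eq_zero hz]; simp
    · have := hM (s, z) ⟨ball_subset_closedBall hs, by
        rw [mem_closedBall_zero_iff]; linarith⟩
      rw [norm_mul, Real.norm_of_nonneg (rho_nonneg z)]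
      exact mul_le_mul_of_nonneg_right this (rho_nonneg z)
  · exact (continuous_rho.const_mul M).integrable_of_hasCompactSupport
      (hasCompactSupport_of fun z hz => by rw [rho_eq_zero hz, mul_zero])
  · refine Filter.Eventually.of_forall fun z s _ => ?_
    have h1 : HasDerivAt (fun s : ℝ => x + s • z) z s := by
      have := ((hasDerivAt_id s).smul_const z).const_add x
      simpa using this
    have h2 : HasFDerivAt g (fderiv ℝ g (x + s • z)) (x + s • z) :=
      ((hg.differentiable (by norm_num)) _).hasFDerivAt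
    exact (h2.comp_hasDerivAt s h1).mul_const _

theorem deriv_I_eq {g : E → ℝ} (hg : ContDiff ℝ 2 g) (x : E) (t : ℝ) :
    ∫ z, fderiv ℝ g (x + t • z) z * rho z = t * ∫ z, (Δ g) (x + t • z) * Psi z := by
  have hg1 : Continuous (fderiv ℝ g) := hg.continuous_fderiv (by norm_num)
  have hgc : Continuous g := hg.continuous
  have hgd : ContDiff ℝ 1 (fderiv ℝ g) := hg.fderiv_right (by norm_num)
  have hg2 : Continuous (fderiv ℝ (fderiv ℝ g)) := hgd.continuous_fderiv (by norm_num)
  have hgdd : Differentiable ℝ (fderiv ℝ g) := hgd.differentiable (by norm_num)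
  have hr := continuous_rho
  have hP := continuous_Psi
  -- the pieces
  have e1 : ∀ z : E, fderiv ℝ g (x + t • z) z * rho z
      = ∑ i : Fin 6, -(fderiv ℝ g (x + t • z) (e i) * fderiv ℝ Psi z (e i)) := by
    intro z
    have hz : z = ∑ i : Fin 6, z i • e i := by
      have := (EuclideanSpace.basisFun (Fin 6) ℝ).sum_repr z
      simpa [e] using this.symm
    conv_lhs => rw [show fderiv ℝ g (x + t • z) z
      = ∑ i : Fin 6, z i * fderiv ℝ g (x + t • z) (e i) from by
        conv_lhs => rw [show (fderiv ℝ g (x + t • z)) z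
          = (fderiv ℝ g (x + t • z)) (∑ i : Fin 6, z i • e i) from by rw [← hz]]
        rw [map_sum]
        simp [smul_eq_mul]]
    rw [Finset.sum_mul]
    refine Finset.sum_congr rfl fun i _ => ?_
    rw [fderiv_Psi]
    have : inner ℝ z (e i) = z i := by
      simp [e, EuclideanSpace.inner_single_right]
    rw [this]
    ring
  have hcs : ∀ f : E → ℝ, (∀ z, 1 ≤ ‖z‖ → f z = 0) → Continuous f → Integrable f :=
    fun f h1 h2 => h2.integrable_of_hasCompactSupport (hasCompactSupport_of h1)
  have hcontP : ∀ i, Continuous fun z => fderiv ℝ Psi z (e i) := by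
    intro i
    have : (fun z => fderiv ℝ Psi z (e i)) = fun z => -(rho z * inner ℝ z (e i)) := by
      funext z; exact fderiv_Psi z (e i)
    rw [this]
    fun_prop
  have hi1 : ∀ i, Integrable fun z => fderiv ℝ g (x + t • z) (e i) * fderiv ℝ Psi z (e i) := by
    intro i
    refine hcs _ (fun z hz => ?_) ?_
    · rw [fderiv_Psi, rho_eq_zero hz]; simp
    · have := hcontP i
      fun_prop
  have hi2 : ∀ i, Integrable fun z => fderiv ℝ (fderiv ℝ g) (x + t • z) (e i) (e i) * Psi z := by
    intro i
    refine hcs _ (fun z hz => ?_) ?_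
    · rw [Psi_eq_zero hz]; simp
    · fun_prop
  have hfd : ∀ i z, HasFDerivAt (fun z => fderiv ℝ g (x + t • z) (e i))
      ((ContinuousLinearMap.apply ℝ ℝ (e i)).comp ((fderiv ℝ (fderiv ℝ g) (x + t • z)).comp
        (t • ContinuousLinearMap.id ℝ E))) z := by
    intro i z
    have h1 : HasFDerivAt (fun z : E => x + t • z) (t • ContinuousLinearMap.id ℝ E) z := by
      exact ((hasFDerivAt_id z).const_smul t).const_add x
    have h2 : HasFDerivAt (fderiv ℝ g) (fderiv ℝ (fderiv ℝ g) (x + t • z)) (x + t • z) :=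
      (hgdd _).hasFDerivAt
    exact (ContinuousLinearMap.apply ℝ ℝ (e i)).hasFDerivAt.comp z (h2.comp z h1)
  have hfe : ∀ i z, fderiv ℝ (fun z => fderiv ℝ g (x + t • z) (e i)) z (e i)
      = t * fderiv ℝ (fderiv ℝ g) (x + t • z) (e i) (e i) := by
    intro i z
    rw [(hfd i z).fderiv]
    simp
  have hparts : ∀ i, ∫ z, fderiv ℝ g (x + t • z) (e i) * fderiv ℝ Psi z (e i)
      = -∫ z, t * fderiv ℝ (fderiv ℝ g) (x + t • z) (e i) (e i) * Psi z := by
    intro i
    have := integral_mul_fderiv_eq_neg_fderiv_mul_of_integrable (μ := (volume : Measure E))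
      (f := fun z => fderiv ℝ g (x + t • z) (e i)) (g := Psi) (v := e i) ?_ ?_ ?_ ?_ ?_
    · rw [this]
      congr 1
      refine integral_congr_ae (Filter.Eventually.of_forall fun z => ?_)
      simp only
      rw [hfe]
    · have h := (hi2 i).const_mul t
      refine h.congr (Filter.Eventually.of_forall fun z => ?_)
      simp only
      rw [hfe]; ring
    · exact hi1 i
    · refine hcs _ (fun z hz => ?_) ?_
      · rw [Psi_eq_zero hz]; simp
      · fun_prop
    · intro z _; exact (hfd i z).differentiableAt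
    · intro z _; exact (hasFDerivAt_Psi z).differentiableAt
  have main : ∫ z, fderiv ℝ g (x + t • z) z * rho z = t * ∫ z, (Δ g) (x + t • z) * Psi z := by
    rw [← integral_const_mul]
    calc ∫ z, fderiv ℝ g (x + t • z) z * rho z
        = ∫ z, ∑ i : Fin 6, -(fderiv ℝ g (x + t • z) (e i) * fderiv ℝ Psi z (e i)) := by
          exact integral_congr_ae (Filter.Eventually.of_forall e1)
      _ = ∑ i : Fin 6, ∫ z, -(fderiv ℝ g (x + t • z) (e i) * fderiv ℝ Psi z (e i)) := by
          exact integral_finsetSum _ fun i _ => (hi1 i).neg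
      _ = ∑ i : Fin 6, ∫ z, t * (fderiv ℝ (fderiv ℝ g) (x + t • z) (e i) (e i) * Psi z) := by
          refine Finset.sum_congr rfl fun i _ => ?_
          rw [integral_neg, hparts i, neg_neg]
          refine integral_congr_ae (Filter.Eventually.of_forall fun z => ?_)
          simp only
          ring
      _ = ∫ z, ∑ i : Fin 6, t * (fderiv ℝ (fderiv ℝ g) (x + t • z) (e i) (e i) * Psi z) := by
          exact (integral_finsetSum _ fun i _ => (hi2 i).const_mul t).symm
      _ = _ := by
          refine integral_congr_ae (Filter.Eventually.of_forall fun z => ?_)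
          simp only
          rw [lap_eq, Finset.sum_mul, Finset.mul_sum]
  exact main

theorem continuous_lap {g : E → ℝ} (hg : ContDiff ℝ 2 g) : Continuous (Δ g) := by
  have hgd : ContDiff ℝ 1 (fderiv ℝ g) := hg.fderiv_right (by norm_num)
  have hg2 : Continuous (fderiv ℝ (fderiv ℝ g)) := hgd.continuous_fderiv (by norm_num)
  have : (Δ g) = fun x => ∑ i : Fin 6, fderiv ℝ (fderiv ℝ g) x (e i) (e i) := by
    funext x; exact lap_eq g x
  rw [this]
  fun_prop

theorem int_rho_pos : 0 < ∫ z, rho z := by
  refine continuous_rho.integral_pos_of_hasCompactSupport_nonneg_nonzero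
    (hasCompactSupport_of fun z hz => rho_eq_zero hz) rho_nonneg (x := 0) ?_
  simp [rho]

theorem deriv_I_ge {g : E → ℝ} (hg : ContDiff ℝ 2 g) {x : E} {s L t : ℝ} (hs : 0 < s)
    (hL : 0 ≤ L) (hpos : ∀ y ∈ ball x s, 0 ≤ g y) (hlap : ∀ y ∈ ball x s, -(Δ g) y ≤ L * g y)
    (ht0 : 0 ≤ t) (hts : t ≤ s) :
    -(t * L / 6) * I g x t ≤ t * ∫ z, (Δ g) (x + t • z) * Psi z := by
  have hr := continuous_rho
  have hP := continuous_Psi
  have hl := continuous_lap hg
  have hgc : Continuous g := hg.continuous
  have h1 : ∫ z, -(L / 6) * (g (x + t • z) * rho z) ≤ ∫ z, (Δ g) (x + t • z) * Psi z := by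
    apply integral_mono
    · have : Continuous (fun z => g (x + t • z) * rho z) := by fun_prop
      exact (this.integrable_of_hasCompactSupport
        (hasCompactSupport_of fun z hz => by rw [rho_eq_zero hz, mul_zero])).const_mul _
    · have : Continuous (fun z => (Δ g) (x + t • z) * Psi z) := by fun_prop
      exact this.integrable_of_hasCompactSupport
        (hasCompactSupport_of fun z hz => by rw [Psi_eq_zero hz, mul_zero])
    · intro z
      simp only
      by_cases hz : 1 ≤ ‖z‖
      · rw [rho_eq_zero hz, Psi_eq_zero hz]; simp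
      · push Not at hz
        have hmem : x + t • z ∈ ball x s := by
          rw [mem_ball, dist_self_add_left, norm_smul, Real.norm_of_nonneg ht0]
          rcases ht0.eq_or_lt with h0 | h0
          · rw [← h0]; simpa using hs
          · nlinarith
        have h1 := hpos _ hmem
        have h2 := hlap _ hmem
        have h3 := Psi_le z
        have h4 := Psi_nonneg z
        have h5 : -(L * g (x + t • z)) * Psi z ≤ (Δ g) (x + t • z) * Psi z :=
          mul_le_mul_of_nonneg_right (by linarith) h4
        have h6 : L * g (x + t • z) * Psi z ≤ L * g (x + t • z) * (rho z / 6) :=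
          mul_le_mul_of_nonneg_left h3 (mul_nonneg hL h1)
        nlinarith
  have h2 : ∫ z, -(L / 6) * (g (x + t • z) * rho z) = -(L / 6) * I g x t := by
    rw [integral_const_mul]; rfl
  rw [h2] at h1
  have := mul_le_mul_of_nonneg_left h1 ht0
  calc -(t * L / 6) * I g x t = t * (-(L / 6) * I g x t) := by ring
    _ ≤ _ := this

/-- The rescaled mean is bounded by the integral over the ball. -/
theorem I_half_le {g : E → ℝ} (hg : Continuous g) {x : E} {s : ℝ} (hs : 0 < s)
    (hpos : ∀ y ∈ ball x s, 0 ≤ g y) :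
    I g x (s / 2) ≤ 64 / s ^ 6 * ∫ y in ball x s, g y := by
  have hr := continuous_rho
  have h1 : I g x (s / 2) = |((s / 2) ^ 6)⁻¹| * ∫ w, g (x + w) * rho ((2 / s) • w) := by
    have := Measure.integral_comp_smul (volume : Measure E)
      (fun w => g (x + w) * rho ((2 / s) • w)) (s / 2)
    simp only [finrank_euclideanSpace, Fintype.card_fin, smul_eq_mul] at this
    rw [← this]
    unfold I
    refine integral_congr_ae (Filter.Eventually.of_forall fun z => ?_)
    simp only [smul_smul]
    have : 2 / s * (s / 2) = 1 := by field_simp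
    rw [this, one_smul]
  have h2 : ∫ w, g (x + w) * rho ((2 / s) • w) = ∫ y, g y * rho ((2 / s) • (y - x)) := by
    have := integral_add_left_eq_self (μ := (volume : Measure E))
      (fun y => g y * rho ((2 / s) • (y - x))) x
    rw [← this]
    refine integral_congr_ae (Filter.Eventually.of_forall fun z => ?_)
    simp
  have hgi : IntegrableOn g (ball x s) :=
    (hg.continuousOn.integrableOn_compact (isCompact_closedBall x s)).mono_set
      ball_subset_closedBall
  have h3 : ∫ y, g y * rho ((2 / s) • (y - x)) ≤ ∫ y in ball x s, g y := by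
    rw [← integral_indicator measurableSet_ball]
    apply integral_mono
    · have : Continuous (fun y => g y * rho ((2 / s) • (y - x))) := by fun_prop
      refine this.integrable_of_hasCompactSupport ?_
      apply HasCompactSupport.intro (isCompact_closedBall x s)
      intro z hz
      rw [mem_closedBall, not_le, dist_eq_norm] at hz
      rw [rho_eq_zero, mul_zero]
      rw [norm_smul, Real.norm_of_nonneg (by positivity)]
      calc (1 : ℝ) ≤ 2 / s * s := by field_simp; norm_num
        _ ≤ 2 / s * ‖z - x‖ := by gcongr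
    · exact hgi.integrable_indicator measurableSet_ball
    · intro y
      simp only
      by_cases hy : y ∈ ball x s
      · rw [indicator_of_mem hy]
        have h1 := hpos y hy
        have h2 := rho_le_one ((2 / s) • (y - x))
        nlinarith
      · rw [indicator_of_notMem hy]
        rw [mem_ball, not_lt, dist_eq_norm] at hy
        rw [rho_eq_zero, mul_zero]
        rw [norm_smul, Real.norm_of_nonneg (by positivity)]
        calc (1 : ℝ) ≤ 2 / s * s := by field_simp; norm_num
          _ ≤ 2 / s * ‖y - x‖ := by gcongr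
  rw [h1, h2]
  have e1 : |((s / 2) ^ 6)⁻¹| = 64 / s ^ 6 := by
    rw [abs_of_pos (by positivity)]
    field_simp
    norm_num
  rw [e1]
  exact mul_le_mul_of_nonneg_left h3 (by positivity)

theorem I_zero (g : E → ℝ) (x : E) : I g x 0 = g x * ∫ z, rho z := by
  unfold I
  simp only [zero_smul, add_zero]
  exact integral_const_mul _ _

end MV

theorem mean_value : ∃ C : ℝ, 0 < C ∧ ∀ (x : E) (s L : ℝ) (g : E → ℝ), 0 < s → 0 ≤ L →
    L * s ^ 2 ≤ 4 → ContDiff ℝ 2 g → (∀ y ∈ ball x s, 0 ≤ g y) →
    (∀ y ∈ ball x s, -(Δ g) y ≤ L * g y) →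
    s ^ 6 * g x ≤ C * ∫ y in ball x s, g y := by
  have hρ := MV.int_rho_pos
  refine ⟨64 * Real.exp 1 / ∫ z, MV.rho z, by positivity, ?_⟩
  intro x s L g hs hL hLs hg hpos hlap
  set h : ℝ → ℝ := fun t => Real.exp (L * t ^ 2 / 12) * MV.I g x t with hh
  have hder : ∀ t, HasDerivAt h (Real.exp (L * t ^ 2 / 12) * (L * t / 6) * MV.I g x t +
      Real.exp (L * t ^ 2 / 12) * (t * ∫ z, (Δ g) (x + t • z) * MV.Psi z)) t := by
    intro t
    have h1 : HasDerivAt (fun t : ℝ => Real.exp (L * t ^ 2 / 12))
        (Real.exp (L * t ^ 2 / 12) * (L * t / 6)) t := by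
      have h0 : HasDerivAt (fun t : ℝ => L * t ^ 2 / 12) (L * t / 6) t := by
        have := ((hasDerivAt_pow 2 t).const_mul L).div_const 12
        refine this.congr_deriv ?_
        push_cast
        ring
      exact h0.exp
    have h2 := MV.hasDerivAt_I hg x t
    rw [MV.deriv_I_eq hg x t] at h2
    exact h1.mul h2
  have hmono : MonotoneOn h (Icc 0 (s / 2)) := by
    apply monotoneOn_of_deriv_nonneg (convex_Icc 0 (s / 2))
    · exact fun t _ => (hder t).continuousAt.continuousWithinAt
    · exact fun t _ => (hder t).differentiableAt.differentiableWithinAt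
    · intro t ht
      rw [interior_Icc] at ht
      rw [(hder t).deriv]
      have := MV.deriv_I_ge hg hs hL hpos hlap ht.1.le (by linarith [ht.2] : t ≤ s)
      have he := Real.exp_pos (L * t ^ 2 / 12)
      have := mul_le_mul_of_nonneg_left this he.le
      nlinarith
  have h0 : h 0 ≤ h (s / 2) := hmono ⟨le_rfl, by positivity⟩ ⟨by positivity, le_rfl⟩ (by positivity)
  have e0 : h 0 = g x * ∫ z, MV.rho z := by
    simp only [hh, MV.I_zero]
    simp
  have hI : 0 ≤ ∫ y in ball x s, g y := setIntegral_nonneg measurableSet_ball hpos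
  have e1 : h (s / 2) ≤ Real.exp 1 * (64 / s ^ 6 * ∫ y in ball x s, g y) := by
    simp only [hh]
    apply mul_le_mul
    · apply Real.exp_le_exp.mpr
      nlinarith
    · exact MV.I_half_le hg.continuous hs hpos
    · exact integral_nonneg_of_ae (Filter.Eventually.of_forall fun z => by
        simp only [Pi.zero_apply]
        by_cases hz : 1 ≤ ‖z‖
        · rw [MV.rho_eq_zero hz, mul_zero]
        · push Not at hz
          refine mul_nonneg (hpos _ ?_) (MV.rho_nonneg z)
          rw [mem_ball, dist_self_add_left, norm_smul, Real.norm_of_nonneg (by positivity)]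
          nlinarith)
    · positivity
  rw [e0] at h0
  have h2 := h0.trans e1
  rw [div_mul_eq_mul_div, le_div_iff₀ hρ]
  have h3 : s ^ 6 * (Real.exp 1 * (64 / s ^ 6 * ∫ y in ball x s, g y))
      = 64 * Real.exp 1 * ∫ y in ball x s, g y := by
    field_simp
  calc s ^ 6 * g x * ∫ z, MV.rho z = s ^ 6 * (g x * ∫ z, MV.rho z) := by ring
    _ ≤ s ^ 6 * (Real.exp 1 * (64 / s ^ 6 * ∫ y in ball x s, g y)) :=
        mul_le_mul_of_nonneg_left h2 (by positivity)
    _ = _ := h3

end Pool.Helper4.BT
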