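import Pool.Agent.Helper83.BT.POH
import Pool.Agent.Helper17.BT.Kernel
import Pool.Agent.Helper26.BT.KER3

/-!
# IDN : identities for the outer field
-/

namespace Pool.Helper4.BT
open MeasureTheory Metric Set Laplacian InnerProductSpace Topology

namespace IDN

theorem contDiff_src (u : E → ℝ) (hu : ContDiff ℝ 2 u) (lam : ℝ) (p : E) (ρ : ℝ) :
    ContDiff ℝ 1 (fun y => chi p ρ y * nl lam (u y)) :=
  (contDiff_chi p ρ (n := 1)).mul (contDiff_nl lam u hu)

theorem hasCompactSupport_src (u : E → ℝ) (lam : ℝ) (p : E) {ρ : ℝ} (hρ : 0 < ρ) :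
    HasCompactSupport (fun y => chi p ρ y * nl lam (u y)) :=
  (hasCompactSupport_chi p hρ).mul_right

theorem fderiv_ee (u : E → ℝ) (hu : ContDiff ℝ 2 u) (lam : ℝ) (p : E) {ρ : ℝ} (hρ : 0 < ρ)
    (x : E) : fderiv ℝ (ee u lam p ρ) x
      = fderiv ℝ u x - fderiv ℝ (N (fun y => chi p ρ y * nl lam (u y))) x := by
  have h1 : DifferentiableAt ℝ u x := hu.differentiable (by norm_num) x
  have h2 : DifferentiableAt ℝ (N (fun y => chi p ρ y * nl lam (u y))) x :=
    (contDiff_N _ (contDiff_src u hu lam p ρ) (hasCompactSupport_src u lam p hρ)).differentiable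
      (by norm_num) x
  exact (h1.hasFDerivAt.sub h2.hasFDerivAt).fderiv

end IDN

theorem idn (u : E → ℝ) (hu : ContDiff ℝ 2 u) (lam : ℝ) (c p : E) (ρ : ℝ) (hρ : 0 < ρ) :
    ∫ x, chi p ρ x * nl lam (u x) *
        (fderiv ℝ (ee u lam p ρ) x (x - c) + 2 * ee u lam p ρ x)
      = -(∫ x, Gp lam (u x) * fderiv ℝ (chi p ρ) x (x - c))
        - lam * ∫ x, chi p ρ x * u x ^ 2 := by
  have hf := IDN.contDiff_src u hu lam p ρ
  have hc := IDN.hasCompactSupport_src u lam p hρ
  have hN := contDiff_N _ hf hc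
  have hNc : Continuous (N (fun y => chi p ρ y * nl lam (u y))) := hN.continuous
  have hNf : Continuous (fderiv ℝ (N (fun y => chi p ρ y * nl lam (u y)))) :=
    hN.continuous_fderiv (by norm_num)
  have hcc : Continuous (chi p ρ) := (contDiff_chi p ρ (n := 1)).continuous
  have huc : Continuous u := hu.continuous
  have huf : Continuous (fderiv ℝ u) := hu.continuous_fderiv (by norm_num)
  have hn := POH.continuous_nl huc lam
  have h1 := pohozaev u hu lam c p ρ hρ
  have h2 := self_zero _ hf hc c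
  have hi1 : Integrable fun x => chi p ρ x * nl lam (u x) * (fderiv ℝ u x (x - c) + 2 * u x) := by
    refine POH.integrable_of (p := p) (r := 2 * ρ) (by fun_prop) fun x hx => ?_
    rw [chi_eq_zero hρ hx.le]; ring
  have hi2 : Integrable fun x => chi p ρ x * nl lam (u x) *
      (fderiv ℝ (N (fun y => chi p ρ y * nl lam (u y))) x (x - c)
        + 2 * N (fun y => chi p ρ y * nl lam (u y)) x) := by
    refine POH.integrable_of (p := p) (r := 2 * ρ) (by fun_prop) fun x hx => ?_
    rw [chi_eq_zero hρ hx.le]; ring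
  rw [← h1]
  have h3 : ∫ x, chi p ρ x * nl lam (u x) * (fderiv ℝ u x (x - c) + 2 * u x)
      = (∫ x, chi p ρ x * nl lam (u x) * (fderiv ℝ u x (x - c) + 2 * u x))
        - ∫ x, chi p ρ x * nl lam (u x) *
      (fderiv ℝ (N (fun y => chi p ρ y * nl lam (u y))) x (x - c)
        + 2 * N (fun y => chi p ρ y * nl lam (u y)) x) := by
    rw [h2, sub_zero]
  rw [h3, ← integral_sub hi1 hi2]
  refine integral_congr_ae (Filter.Eventually.of_forall fun x => ?_)
  simp only
  rw [IDN.fderiv_ee u hu lam p hρ x]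
  simp only [ee, _root_.sub_apply]
  ring

theorem idn' (u : E → ℝ) (hu : ContDiff ℝ 2 u) (lam : ℝ) (p v : E) (ρ : ℝ) (hρ : 0 < ρ) :
    ∫ x, chi p ρ x * nl lam (u x) * fderiv ℝ (ee u lam p ρ) x v
      = -(∫ x, Gp lam (u x) * fderiv ℝ (chi p ρ) x v) := by
  have hf := IDN.contDiff_src u hu lam p ρ
  have hc := IDN.hasCompactSupport_src u lam p hρ
  have hN := contDiff_N _ hf hc
  have hNf : Continuous (fderiv ℝ (N (fun y => chi p ρ y * nl lam (u y)))) :=
    hN.continuous_fderiv (by norm_num)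
  have hcc : Continuous (chi p ρ) := (contDiff_chi p ρ (n := 1)).continuous
  have huc : Continuous u := hu.continuous
  have huf : Continuous (fderiv ℝ u) := hu.continuous_fderiv (by norm_num)
  have hn := POH.continuous_nl huc lam
  have h1 := pohozaev' u hu lam p v ρ hρ
  have h2 := self_zero' _ hf hc v
  have hi1 : Integrable fun x => chi p ρ x * nl lam (u x) * fderiv ℝ u x v := by
    refine POH.integrable_of (p := p) (r := 2 * ρ) (by fun_prop) fun x hx => ?_
    rw [chi_eq_zero hρ hx.le]; ring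
  have hi2 : Integrable fun x => chi p ρ x * nl lam (u x) *
      fderiv ℝ (N (fun y => chi p ρ y * nl lam (u y))) x v := by
    refine POH.integrable_of (p := p) (r := 2 * ρ) (by fun_prop) fun x hx => ?_
    rw [chi_eq_zero hρ hx.le]; ring
  rw [← h1]
  have h3 : ∫ x, chi p ρ x * nl lam (u x) * fderiv ℝ u x v
      = (∫ x, chi p ρ x * nl lam (u x) * fderiv ℝ u x v)
        - ∫ x, chi p ρ x * nl lam (u x) *
      fderiv ℝ (N (fun y => chi p ρ y * nl lam (u y))) x v := by
    rw [h2, sub_zero]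
  rw [h3, ← integral_sub hi1 hi2]
  refine integral_congr_ae (Filter.Eventually.of_forall fun x => ?_)
  simp only
  rw [IDN.fderiv_ee u hu lam p hρ x]
  simp only [_root_.sub_apply]
  ring

end Pool.Helper4.BT
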